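import Pool.Agent.W965.LU.Stms

/-! LU-EMB: embedding into blocks, or a sparse pair. -/

set_option autoImplicit false

namespace Pool.Agent.W108.LU.Emb

open Pool.Agent.W965.LU

theorem main : S_EMB := by
  classical
  intro g Q m t
  induction t with
  | zero =>
    intro c0 b F W hQ ht hb hW
    left
    exact ⟨fun _ => 0, fun i hi => absurd hi (Nat.not_lt_zero _),
      fun i j _ hj => absurd hj (Nat.not_lt_zero _)⟩
  | succ t ih =>
    intro c0 b F W hQ ht hb hW
    have hW0 := hW 0 (Nat.succ_pos t)
    have hne : 0 < (W 0).card := by
      rcases Nat.eq_zero_or_pos (W 0).card with h | h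
      · rw [h] at hW0
        omega
      · exact h
    by_cases hcase : ∃ x0 ∈ W 0, ∀ j < t,
        (W (j + 1)).card ≤ Q * ((W (j + 1)).filter (fun y => g x0 y = F 0 (j + 1))).card
    · obtain ⟨x0, hx0, hx⟩ := hcase
      have h1 := ih (c0 * Q) b (fun i j => F (i + 1) (j + 1))
        (fun j => (W (j + 1)).filter (fun y => g x0 y = F 0 (j + 1))) hQ (by omega) hb (by
          intro i hi
          calc b ≤ c0 * (W (i + 1)).card := hW (i + 1) (by omega)
            _ ≤ c0 * (Q * ((W (i + 1)).filter (fun y => g x0 y = F 0 (i + 1))).card) :=
              Nat.mul_le_mul_left _ (hx i hi)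
            _ = _ := by rw [mul_assoc])
      rcases h1 with ⟨x', hx1, hx2⟩ | ⟨i, j, A, D, c, hij, hj, hA, hD, hbA, hbD, hs⟩
      · left
        refine ⟨fun i => if i = 0 then x0 else x' (i - 1), ?_, ?_⟩
        · intro i hi
          rcases i with _ | i
          · simpa using hx0
          · have := hx1 i (by omega)
            rw [Finset.mem_filter] at this
            simpa using this.1
        · intro i j hij hj
          rcases j with _ | j
          · omega
          · rcases i with _ | i
            · have := hx1 j (by omega)
              rw [Finset.mem_filter] at this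
              simpa using this.2
            · simpa using hx2 i j (by omega) (by omega)
      · right
        refine ⟨i + 1, j + 1, A, D, c, by omega, by omega, hA.trans (Finset.filter_subset _ _),
          hD.trans (Finset.filter_subset _ _), ?_, ?_, hs⟩
        · refine hbA.trans (le_of_eq ?_)
          ring
        · refine hbD.trans (le_of_eq ?_)
          ring
    · right
      push Not at hcase
      set A : ℕ → Finset ℕ := fun j => (W 0).filter (fun x =>
        Q * ((W (j + 1)).filter (fun y => g x y = F 0 (j + 1))).card < (W (j + 1)).card) with hA
      have hcov : W 0 ⊆ (Finset.range t).biUnion A := by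
        intro x hx
        obtain ⟨j, hj, h⟩ := hcase x hx
        rw [Finset.mem_biUnion]
        exact ⟨j, Finset.mem_range.2 hj, Finset.mem_filter.2 ⟨hx, h⟩⟩
      have hsum : (W 0).card ≤ ∑ j ∈ Finset.range t, (A j).card :=
        (Finset.card_le_card hcov).trans Finset.card_biUnion_le
      obtain ⟨j, hj, hAj⟩ : ∃ j < t, (W 0).card ≤ t * (A j).card := by
        by_contra hcon
        push Not at hcon
        have htpos : 0 < t := by
          rcases Nat.eq_zero_or_pos t with h | h
          · rw [h] at hsum
            simp at hsum
            rw [hsum] at hne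
            simp at hne
          · exact h
        have h2 : ∑ j ∈ Finset.range t, t * (A j).card < ∑ _j ∈ Finset.range t, (W 0).card :=
          Finset.sum_lt_sum_of_nonempty (Finset.nonempty_range_iff.2 (by omega))
            (fun j hj => hcon j (Finset.mem_range.1 hj))
        rw [← Finset.mul_sum, Finset.sum_const, Finset.card_range, smul_eq_mul] at h2
        have h3 := Nat.mul_le_mul_left t hsum
        omega
      have hQp : 1 ≤ Q ^ (t + 1) := Nat.one_le_pow _ _ hQ
      refine ⟨0, j + 1, A j, W (j + 1), F 0 (j + 1), by omega, by omega,
        Finset.filter_subset _ _, Finset.Subset.refl _, ?_, ?_, ?_⟩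
      · calc b ≤ c0 * (W 0).card := hW0
          _ ≤ c0 * (t * (A j).card) := Nat.mul_le_mul_left _ hAj
          _ ≤ c0 * (Q ^ (t + 1) * m * (A j).card) := by
            apply Nat.mul_le_mul_left
            apply Nat.mul_le_mul_right
            calc t ≤ m := by omega
              _ = 1 * m := (one_mul m).symm
              _ ≤ Q ^ (t + 1) * m := Nat.mul_le_mul_right _ hQp
          _ = _ := by ring
      · calc b ≤ c0 * (W (j + 1)).card := hW (j + 1) (by omega)
          _ ≤ c0 * (Q ^ (t + 1) * m * (W (j + 1)).card) := by
            apply Nat.mul_le_mul_left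
            calc (W (j + 1)).card = 1 * (W (j + 1)).card := (one_mul _).symm
              _ ≤ Q ^ (t + 1) * m * (W (j + 1)).card := by
                apply Nat.mul_le_mul_right
                calc 1 = 1 * 1 := rfl
                  _ ≤ Q ^ (t + 1) * m := Nat.mul_le_mul hQp (by omega)
          _ = _ := by ring
      · intro a ha
        exact (Finset.mem_filter.1 ha).2.le

end Pool.Agent.W108.LU.Emb
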